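import Mathlib
import Pool.Agent.CB71.GF

set_option autoImplicit false

/-!
MP_d14c4c_al.  Subgroups of finite index of finitely generated contracting regular branch groups
have finite commutator width.

The group acts on the set `List X` of the words over a finite alphabet `X` (the vertices of a
rooted regular tree).  The definitions `SelfSimilar`, `IsSection`, `Contracting`,
`LevelTransitive`, `ContainsPower` are in `Pool.Agent.CB71.Tree`.
-/

namespace Pool.Agent.MZ71.Variants.ContractingBranch

open scoped commutatorElement
open Pool.Agent.CB71

/-- Let `X` be a finite alphabet with at least two letters and let `G` be a finitely generated,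
self-similar, contracting, level-transitive group of permutations of the words over `X`, which is
regular branch over a subgroup `K` of finite index.  Then for every subgroup `H` of finite index
in `G` there is a number `N` such that every element of the derived subgroup of `H` is a product
of at most `N` commutators of elements of `H`. -/
theorem result (X : Type) [Finite X] [Nontrivial X] (G K : Subgroup (Equiv.Perm (List X)))
    (hfg : G.FG) (hss : SelfSimilar G) (hc : Contracting G) (ht : LevelTransitive G)
    (hKG : K ≤ G) (hKi : (K.subgroupOf G).FiniteIndex) (hKp : ContainsPower K)
    (H : Subgroup (Equiv.Perm (List X))) (hHG : H ≤ G) (hHi : (H.subgroupOf G).FiniteIndex) :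
    ∃ N : ℕ, ∀ g ∈ commutator H, ∃ l : List (H × H),
      l.length ≤ N ∧ g = (l.map fun p => ⁅p.1, p.2⁆).prod :=
  main_FI hfg hss hc ht hKG hKi hKp hHG hHi

end Pool.Agent.MZ71.Variants.ContractingBranch
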